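import Pool.Agent.N929.AP.Stm

/-! # Project AP, part PT: the pattern theorem, analysis -/

set_option autoImplicit false

namespace Pool.Agent.N342.AP

open Finset Filter Topology Pool.Agent.N929.EG Pool.Agent.N789.Kl Pool.Agent.N929.AP

lemma card_blk (u : Cell) : (blk u).card = 25 := by
  unfold blk
  rw [Finset.card_product, Int.card_Icc, Int.card_Icc]
  have h1 : (5 * u.1 + 2 + 1 - (5 * u.1 - 2)).toNat = 5 := by omega
  have h2 : (5 * u.2 + 2 + 1 - (5 * u.2 - 2)).toNat = 5 := by omega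
  rw [h1, h2]

lemma le_hit (P : Finset Cell) : P.card ≤ 25 * (hit P).card := by
  have h1 : P ⊆ (hit P).biUnion blk := by
    intro c hc
    rw [Finset.mem_biUnion]
    refine ⟨((c.1 + 2) / 5, (c.2 + 2) / 5), Finset.mem_image_of_mem _ hc, ?_⟩
    unfold blk
    rw [Finset.mem_product, Finset.mem_Icc, Finset.mem_Icc]
    constructor <;> constructor <;> simp only <;> omega
  calc P.card ≤ ((hit P).biUnion blk).card := Finset.card_le_card h1
    _ ≤ ∑ u ∈ hit P, (blk u).card := Finset.card_biUnion_le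
    _ = ∑ u ∈ hit P, 25 := Finset.sum_congr rfl fun u _ => card_blk u
    _ = 25 * (hit P).card := by rw [Finset.sum_const, smul_eq_mul, mul_comm]

lemma hit_le (P : Finset Cell) : (hit P).card ≤ P.card := Finset.card_image_le

lemma binom (e : ℝ) {h n : ℕ} (hn : h ≤ n) :
    ∑ t ∈ range (n + 1), e ^ t * (h.choose t : ℝ) = (1 + e) ^ h := by
  have h1 : (1 + e) ^ h = ∑ t ∈ range (h + 1), e ^ t * (h.choose t : ℝ) := by
    rw [add_comm, add_pow]
    refine Finset.sum_congr rfl fun t _ => ?_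
    rw [one_pow, mul_one]
  rw [h1]
  symm
  refine Finset.sum_subset (Finset.range_mono (by omega)) fun t _ ht => ?_
  rw [Finset.mem_range, not_lt] at ht
  rw [Nat.choose_eq_zero_of_lt (by omega), Nat.cast_zero, mul_zero]

lemma a_sum (n t : ℕ) (ht : t ≤ n) :
    ((∑ m ∈ range (n + 25 * t + 1), a m : ℕ) : ℝ) ≤ (26 * (n : ℝ) + 1) ^ 2 * lam ^ (n + 25 * t) := by
  have h1 : ∀ m ∈ range (n + 25 * t + 1), (a m : ℝ) ≤ (26 * (n : ℝ) + 1) * lam ^ (n + 25 * t) := by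
    intro m hm
    rw [Finset.mem_range] at hm
    have h2 : (a m : ℝ) ≤ m * Pool.Agent.N789.Kl.t m := by exact_mod_cast a_le m
    have h3 : (Pool.Agent.N789.Kl.t m : ℝ) ≤ lam ^ m := t_le_lam m
    have h4 : lam ^ m ≤ lam ^ (n + 25 * t) := pow_le_pow_right₀ one_le_lam (by omega)
    have h5 : (m : ℝ) ≤ 26 * n + 1 := by
      have : m ≤ 26 * n + 1 := by omega
      exact_mod_cast this
    have h6 : (0 : ℝ) ≤ m := Nat.cast_nonneg m
    have h7 : (0 : ℝ) ≤ lam ^ (n + 25 * t) := pow_nonneg (by linarith [one_le_lam]) _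
    calc (a m : ℝ) ≤ m * Pool.Agent.N789.Kl.t m := h2
      _ ≤ m * lam ^ (n + 25 * t) := mul_le_mul_of_nonneg_left (h3.trans h4) h6
      _ ≤ (26 * (n : ℝ) + 1) * lam ^ (n + 25 * t) := mul_le_mul_of_nonneg_right h5 h7
  rw [Nat.cast_sum]
  refine (Finset.sum_le_sum h1).trans ?_
  rw [Finset.sum_const, Finset.card_range, nsmul_eq_mul]
  have h7 : (0 : ℝ) ≤ lam ^ (n + 25 * t) := pow_nonneg (by linarith [one_le_lam]) _
  have h8 : ((n + 25 * t + 1 : ℕ) : ℝ) ≤ 26 * n + 1 := by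
    have : n + 25 * t + 1 ≤ 26 * n + 1 := by omega
    exact_mod_cast this
  calc ((n + 25 * t + 1 : ℕ) : ℝ) * ((26 * (n : ℝ) + 1) * lam ^ (n + 25 * t)) ≤
      (26 * (n : ℝ) + 1) * ((26 * (n : ℝ) + 1) * lam ^ (n + 25 * t)) :=
        mul_le_mul_of_nonneg_right h8 (by positivity)
    _ = _ := by ring

lemma geo (n : ℕ) : ∑ t ∈ range (n + 1), (1 / 2 : ℝ) ^ t ≤ 2 := by
  have h : ∀ k : ℕ, ∑ t ∈ range k, (1 / 2 : ℝ) ^ t = 2 - 2 * (1 / 2) ^ k := by
    intro k
    induction k with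
    | zero => norm_num
    | succ k ih => rw [Finset.sum_range_succ, ih, pow_succ]; ring
  rw [h]
  have : (0 : ℝ) < (1 / 2) ^ (n + 1) := by positivity
  linarith

theorem pt (hcnt : S_CNT) : S_PT := by
  have hlam := one_le_lam
  set e : ℝ := 1 / (2 * 2 ^ 74 * lam ^ 25) with he
  have hl25 : (0 : ℝ) < lam ^ 25 := pow_pos (by linarith) _
  have he0 : 0 < e := by positivity
  obtain ⟨μ, hμ1, hμ⟩ : ∃ μ : ℝ, 1 < μ ∧ μ ^ 200 = 1 + e := by
    refine ⟨(1 + e) ^ (((200 : ℕ) : ℝ)⁻¹), Real.one_lt_rpow (by linarith) (by norm_num), ?_⟩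
    exact Real.rpow_inv_natCast_pow (by linarith) (by norm_num)
  have hμ0 : 0 < μ := by linarith
  obtain ⟨M0, hM0⟩ := pow_unbounded_of_one_lt 2 (one_lt_pow₀ hμ1 (by norm_num : (4 : ℕ) ≠ 0))
  have hM : 1 ≤ M0 + 1 := by omega
  have hM2 : 2 ≤ (μ ^ 4) ^ (M0 + 1) :=
    hM0.le.trans (pow_le_pow_right₀ (one_le_pow₀ hμ1.le) (by omega))
  set M := M0 + 1 with hMdef
  set K : ℝ := 26 / (μ - 1) + 1 with hK
  have hK0 : 0 < K := by
    have : 0 < μ - 1 := by linarith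
    positivity
  -- the bound for one kind of pattern
  have key : ∀ X : Finset Cell → Finset Cell, X = SS ∨ X = BB → ∀ n : ℕ,
      (((A0 n).filter (fun P => M * (X P).card ≤ n)).card : ℝ) ≤
        2 * K ^ 2 * ((μ ^ 2)⁻¹ * lam) ^ n := by
    intro X hX n
    set F := (A0 n).filter (fun P => M * (X P).card ≤ n) with hF
    have hcard : ∀ P ∈ F, P.card = n := fun P hP => (mem_A0.1 (Finset.mem_filter.1 hP).1).1
    have h1 : ∀ P ∈ F, (μ ^ 8) ^ n ≤ ∑ t ∈ range (n + 1), e ^ t * ((hit P).card.choose t : ℝ) := by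
      intro P hP
      have hP1 := hcard P hP
      rw [binom e (by rw [← hP1]; exact hit_le P), ← hμ, ← pow_mul, ← pow_mul]
      refine pow_le_pow_right₀ hμ1.le ?_
      have := le_hit P
      rw [hP1] at this
      omega
    have h2 : (F.card : ℝ) * (μ ^ 8) ^ n ≤
        ∑ t ∈ range (n + 1), e ^ t * ((∑ P ∈ F, (hit P).card.choose t : ℕ) : ℝ) := by
      calc (F.card : ℝ) * (μ ^ 8) ^ n = ∑ P ∈ F, (μ ^ 8) ^ n := by
            rw [Finset.sum_const, nsmul_eq_mul]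
        _ ≤ ∑ P ∈ F, ∑ t ∈ range (n + 1), e ^ t * ((hit P).card.choose t : ℝ) :=
            Finset.sum_le_sum h1
        _ = _ := by
            rw [Finset.sum_comm]
            refine Finset.sum_congr rfl fun t _ => ?_
            rw [← Finset.mul_sum, Nat.cast_sum]
    have h3 : ∀ t ∈ range (n + 1), e ^ t * ((∑ P ∈ F, (hit P).card.choose t : ℕ) : ℝ) ≤
        ((26 * (n : ℝ) + 1) ^ 2 * 2 ^ (n / M) * lam ^ n) * (1 / 2) ^ t := by
      intro t ht
      have ht' : t ≤ n := Nat.lt_succ_iff.1 (Finset.mem_range.1 ht)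
      have h4 : ((∑ P ∈ F, (hit P).card.choose t : ℕ) : ℝ) ≤
          2 ^ (n / M + 74 * t) * ((∑ m ∈ range (n + 25 * t + 1), a m : ℕ) : ℝ) := by
        exact_mod_cast hcnt X hX M n t hM
      have h5 := a_sum n t ht'
      have h6 : e ^ t * (2 ^ (n / M + 74 * t) * ((26 * (n : ℝ) + 1) ^ 2 * lam ^ (n + 25 * t))) =
          ((26 * (n : ℝ) + 1) ^ 2 * 2 ^ (n / M) * lam ^ n) * (e * 2 ^ 74 * lam ^ 25) ^ t := by
        rw [pow_add, pow_add, pow_mul, pow_mul, mul_pow, mul_pow]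
        ring
      have h7 : e * 2 ^ 74 * lam ^ 25 = 1 / 2 := by
        rw [he]
        field_simp
      rw [h7] at h6
      rw [← h6]
      refine mul_le_mul_of_nonneg_left (h4.trans ?_) (pow_nonneg he0.le t)
      exact mul_le_mul_of_nonneg_left h5 (by positivity)
    have h4 : (F.card : ℝ) * (μ ^ 8) ^ n ≤ ((26 * (n : ℝ) + 1) ^ 2 * 2 ^ (n / M) * lam ^ n) * 2 := by
      refine h2.trans ((Finset.sum_le_sum h3).trans ?_)
      rw [← Finset.mul_sum]
      exact mul_le_mul_of_nonneg_left (geo n) (by positivity)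
    have h5 : (2 : ℝ) ^ (n / M) ≤ (μ ^ 4) ^ n := by
      calc (2 : ℝ) ^ (n / M) ≤ ((μ ^ 4) ^ M) ^ (n / M) := pow_le_pow_left₀ (by norm_num) hM2 _
        _ = (μ ^ 4) ^ (M * (n / M)) := by rw [← pow_mul]
        _ ≤ (μ ^ 4) ^ n := pow_le_pow_right₀ (one_le_pow₀ hμ1.le) (Nat.mul_div_le n M)
    have h6 : 26 * (n : ℝ) + 1 ≤ K * μ ^ n := by
      have hd : 0 < μ - 1 := by linarith
      have h7 : 1 + (n : ℝ) * (μ - 1) ≤ μ ^ n := by
        have := one_add_mul_le_pow (by linarith : (-2 : ℝ) ≤ μ - 1) n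
        rwa [add_sub_cancel] at this
      have h8 : (n : ℝ) ≤ μ ^ n / (μ - 1) := by
        rw [le_div_iff₀ hd]
        linarith
      have h9 : (1 : ℝ) ≤ μ ^ n := one_le_pow₀ hμ1.le
      have h10 : K * μ ^ n = 26 * (μ ^ n / (μ - 1)) + μ ^ n := by rw [hK]; ring
      rw [h10]
      linarith
    have h7 : (26 * (n : ℝ) + 1) ^ 2 ≤ K ^ 2 * (μ ^ 2) ^ n := by
      have : (26 * (n : ℝ) + 1) ^ 2 ≤ (K * μ ^ n) ^ 2 := pow_le_pow_left₀ (by positivity) h6 2
      rw [mul_pow, ← pow_mul, mul_comm n 2, pow_mul] at this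
      exact this
    have hl : (0 : ℝ) < lam ^ n := pow_pos (by linarith) _
    have h8 : (F.card : ℝ) * (μ ^ 8) ^ n ≤ (K ^ 2 * (μ ^ 2) ^ n * (μ ^ 4) ^ n * lam ^ n) * 2 := by
      refine h4.trans ?_
      refine mul_le_mul_of_nonneg_right (mul_le_mul_of_nonneg_right
        (mul_le_mul h7 h5 (by positivity) (by positivity)) hl.le) (by norm_num)
    have h9 : (μ ^ 8) ^ n = (μ ^ 2) ^ n * (μ ^ 4) ^ n * (μ ^ 2) ^ n := by
      rw [← mul_pow, ← mul_pow]
      congr 1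
      ring
    have h10 : 0 < (μ ^ 2) ^ n * (μ ^ 4) ^ n := by positivity
    have h11 : (F.card : ℝ) * (μ ^ 2) ^ n ≤ 2 * K ^ 2 * lam ^ n := by
      rw [h9] at h8
      have h12 : ((μ ^ 2) ^ n * (μ ^ 4) ^ n) * ((F.card : ℝ) * (μ ^ 2) ^ n) ≤
          ((μ ^ 2) ^ n * (μ ^ 4) ^ n) * (2 * K ^ 2 * lam ^ n) := by
        calc _ = (F.card : ℝ) * ((μ ^ 2) ^ n * (μ ^ 4) ^ n * (μ ^ 2) ^ n) := by ring
          _ ≤ (K ^ 2 * (μ ^ 2) ^ n * (μ ^ 4) ^ n * lam ^ n) * 2 := h8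
          _ = _ := by ring
      exact le_of_mul_le_mul_left h12 h10
    rw [mul_pow, inv_pow]
    have h13 : 0 < (μ ^ 2) ^ n := by positivity
    have h14 : (F.card : ℝ) ≤ 2 * K ^ 2 * lam ^ n / (μ ^ 2) ^ n := (le_div_iff₀ h13).2 h11
    refine h14.trans (le_of_eq ?_)
    field_simp
  refine ⟨M, (μ ^ 2)⁻¹, 4 * K ^ 2, hM, by positivity, ?_, by positivity, fun n => ?_⟩
  · exact inv_lt_one_of_one_lt₀ (one_lt_pow₀ hμ1 (by norm_num))
  · have h1 : (Tm n).filter (fun w => M * (SS w).card ≤ n ∨ M * (BB w).card ≤ n) ⊆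
        (A0 n).filter (fun P => M * (SS P).card ≤ n) ∪
          (A0 n).filter (fun P => M * (BB P).card ≤ n) := by
      intro w hw
      rw [Finset.mem_filter] at hw
      rw [Finset.mem_union, Finset.mem_filter, Finset.mem_filter]
      rcases hw.2 with h | h
      · exact Or.inl ⟨Tm_subset n hw.1, h⟩
      · exact Or.inr ⟨Tm_subset n hw.1, h⟩
    have h2 := (Finset.card_le_card h1).trans (Finset.card_union_le _ _)
    have h3 : (((Tm n).filter (fun w => M * (SS w).card ≤ n ∨ M * (BB w).card ≤ n)).card : ℝ) ≤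
        (((A0 n).filter (fun P => M * (SS P).card ≤ n)).card : ℝ) +
          (((A0 n).filter (fun P => M * (BB P).card ≤ n)).card : ℝ) := by exact_mod_cast h2
    have h4 := key SS (Or.inl rfl) n
    have h5 := key BB (Or.inr rfl) n
    refine h3.trans ?_
    linarith

end Pool.Agent.N342.AP
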